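import Pool.Agent.TH646.CA.Main

/-!
# Even congruent numbers `n = 2 m`, `m` almost prime, `n ≡ 2` modulo `8`, in short intervals

For `3/4 < θ ≤ 1` there is `R` such that for all large `X` the interval `[X, X + X ^ θ]` contains at
least `X ^ (θ - 1/2) / (log X) ^ 8` squarefree congruent numbers `n ≡ 2` modulo `8` with at most `R`
prime factors, all odd ones larger than `X ^ (1 / R)`. So on `[X, 2 X]` there are at least
`X ^ (1/2) / (log X) ^ 8` such numbers.

By Tunnell's theorem all these `n` satisfy `2 |C_n| = |D_n|` and `n` is congruent, so they are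
instances of the implication of Q1. In the other even class `n ≡ 6` modulo `8` the condition
`2 |C_n| = |D_n|` is always satisfied and `n = 2 p` is congruent for all primes `p ≡ 3` modulo `4`
(Heegner points); in the class `n ≡ 2` modulo `8` the elliptic curve has even sign and there is no
such construction.

The numbers are `2 a b (a ^ 2 - 18 ^ 2 b ^ 2)`; the linear forms are sieved, with the lower bound of
the fundamental lemma, in a window of pairs `(a, b)` near the curve `2 a b (a² - 324 b²) = X`; see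
the library files `Pool.Agent.TH646.CA`.
-/

set_option autoImplicit false

namespace Pool.Agent.Results.MP_f126a2_nt.AlmostPrimeCount

/-- `n` is the area of a right triangle with rational sides. -/
def IsCongruent (n : ℕ) : Prop :=
  ∃ a b c : ℚ, 0 < a ∧ 0 < b ∧ 0 < c ∧ a ^ 2 + b ^ 2 = c ^ 2 ∧ (n : ℚ) = a * b / 2

/-- **Many squarefree congruent numbers `n ≡ 2` modulo `8` with few and large odd prime factors, in
short intervals.** -/
theorem result (θ : ℝ) (hθ : 3 / 4 < θ) (hθ1 : θ ≤ 1) :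
    ∃ R : ℕ, 0 < R ∧ ∃ X₀ : ℝ, ∀ X : ℝ, X₀ ≤ X →
      X ^ (θ - 1 / 2) / Real.log X ^ 8 ≤
        (Nat.card {n : ℕ // X ≤ n ∧ (n : ℝ) ≤ X + X ^ θ ∧ n % 8 = 2 ∧ Squarefree n ∧
          IsCongruent n ∧ n.primeFactors.card ≤ R ∧
          ∀ p : ℕ, p.Prime → p ∣ n → p = 2 ∨ X ^ (1 / (R : ℝ)) < p} : ℝ) := by
  obtain ⟨R, hR, X₀, h⟩ := Pool.Agent.TH646.CA.main θ hθ hθ1
  refine ⟨R, hR, X₀, fun X hX => ?_⟩
  have h1 := h X hX 2 18 3 1 2 (by unfold Pool.Agent.TH646.CA.Fam; decide)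
  refine h1.trans (le_of_eq ?_)
  have e : {n : ℕ | X ≤ n ∧ (n : ℝ) ≤ X + X ^ θ ∧ (n : ℤ) % 8 = 2 ∧
      Squarefree n ∧ Pool.Agent.TH646.CA.Cong n ∧ n.primeFactors.card ≤ R ∧
      ∀ p : ℕ, p.Prime → p ∣ n → p = 2 ∨ X ^ (1 / (R : ℝ)) < p} =
      {n : ℕ | X ≤ n ∧ (n : ℝ) ≤ X + X ^ θ ∧ n % 8 = 2 ∧ Squarefree n ∧
          IsCongruent n ∧ n.primeFactors.card ≤ R ∧
          ∀ p : ℕ, p.Prime → p ∣ n → p = 2 ∨ X ^ (1 / (R : ℝ)) < p} := by
    ext n
    have hc : Pool.Agent.TH646.CA.Cong n ↔ IsCongruent n := by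
      constructor
      · rintro ⟨a, b, c, ha, hb, hc, h1, h2⟩
        exact ⟨a, b, c, ha, hb, hc, h1, h2.symm⟩
      · rintro ⟨a, b, c, ha, hb, hc, h1, h2⟩
        exact ⟨a, b, c, ha, hb, hc, h1, h2.symm⟩
    have h8 : ((n : ℤ) % 8 = 2) ↔ n % 8 = 2 := by omega
    simp only [Set.mem_setOf_eq, hc, h8]
  rw [e]
  rfl

end Pool.Agent.Results.MP_f126a2_nt.AlmostPrimeCount
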