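import Pool.Agent.Y859.SI.Fin

set_option autoImplicit false

/-!
# Even almost prime congruent numbers in short intervals and in residue classes to large moduli

The version for even numbers (classes `2` and `6` modulo `8`) of the starting result
`MP_05dcdc_nt.AlmostPrimeIntervals` (odd numbers), from the same theorem `Pool.Agent.Y859.SI.main` of the
starting library. The starting result `ShortIntervals` of this problem has one squarefree congruent number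
in each of the classes `2, 6` modulo `8` in `[X, X + C X ^ (5/6)]`.
-/

namespace Pool.Agent.Results.MP_f126a2_nt.AlmostPrimeIntervals

/-- `n` is the area of a right triangle with rational sides -/
def IsCongruent (n : ℕ) : Prop :=
  ∃ a b c : ℚ, 0 < a ∧ 0 < b ∧ 0 < c ∧ a ^ 2 + b ^ 2 = c ^ 2 ∧ (n : ℚ) = a * b / 2

/-- the set `C_n` of the problem -/
def C (n : ℕ) : Set (ℤ × ℤ × ℤ) := {v | (n : ℤ) = 8 * v.1 ^ 2 + 2 * v.2.1 ^ 2 + 64 * v.2.2 ^ 2}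

/-- the set `D_n` of the problem -/
def D (n : ℕ) : Set (ℤ × ℤ × ℤ) := {v | (n : ℤ) = 8 * v.1 ^ 2 + 2 * v.2.1 ^ 2 + 16 * v.2.2 ^ 2}

/-- `m` has at most `R` prime factors (with multiplicity), the odd ones larger than `X ^ (1 / R)` -/
def AlmostPrime (R : ℕ) (X : ℝ) (m : ℕ) : Prop :=
  m.primeFactorsList.length ≤ R ∧
    ∀ p : ℕ, p.Prime → p ≠ 2 → p ∣ m → X ^ (1 / (R : ℝ)) < (p : ℝ)

lemma no_rep (n : ℕ) (h : n % 8 = 6) (x y z : ℤ) (c : ℤ) (hc : 8 ∣ c) : (n : ℤ) ≠ 8 * x ^ 2 + 2 * y ^ 2 + c * z ^ 2 := by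
  intro he
  obtain ⟨d, rfl⟩ := hc
  have h1 : (n : ℤ) % 8 = 6 := by omega
  have h2 : (8 * x ^ 2 + 2 * y ^ 2 + 8 * d * z ^ 2) % 8 = (2 * y ^ 2) % 8 := by
    have : 8 * x ^ 2 + 2 * y ^ 2 + 8 * d * z ^ 2 = 2 * y ^ 2 + 8 * (x ^ 2 + d * z ^ 2) := by ring
    rw [this, Int.add_mul_emod_self_left]
  rw [he, h2] at h1
  rcases Int.emod_two_eq_zero_or_one y with hy | hy
  · obtain ⟨k, hk⟩ : ∃ k, y = 2 * k := ⟨y / 2, by omega⟩
    rw [hk] at h1
    have : 2 * (2 * k) ^ 2 = 8 * k ^ 2 := by ring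
    rw [this] at h1
    omega
  · obtain ⟨k, hk⟩ : ∃ k, y = 2 * k + 1 := ⟨y / 2, by omega⟩
    rw [hk] at h1
    have : 2 * (2 * k + 1) ^ 2 = 2 + 8 * (k ^ 2 + k) := by ring
    rw [this] at h1
    omega

/-- **Even almost prime congruent numbers in short intervals, in all classes to moduli up to a power.** Let
`2/3 < θ ≤ 17/24`. There are `R` and `X₀` such that for all real `X ≥ X₀`, all moduli
`1 ≤ M ≤ X ^ ((θ - 2/3)/14)` and all even squarefree numbers `k`, at least `X ^ (1/12)` integers `n` in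
`[X, X + X ^ θ]` are even squarefree congruent numbers with `n ≡ k` modulo `8 M` and `n = (k, M) m`, where `m` has
at most `R` prime factors, the odd ones larger than `X ^ (1 / R)`. If `k ≡ 6` modulo `8` then all these `n` satisfy
the hypothesis `2 |C_n| = |D_n|` of the problem, since `C_n` and `D_n` are empty. -/
theorem result (θ : ℝ) (hθ : 2 / 3 < θ) (hθ1 : θ ≤ 17 / 24) :
    ∃ R : ℕ, 1 ≤ R ∧ ∃ X₀ : ℝ, ∀ X : ℝ, X₀ ≤ X →
      ∀ M : ℕ, 0 < M → (M : ℝ) ≤ X ^ ((θ - 2 / 3) / 14) →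
      ∀ k : ℕ, Squarefree k → Even k →
        X ^ (1 / 12 : ℝ) ≤ ({n : ℕ | X ≤ n ∧ (n : ℝ) ≤ X + X ^ θ ∧ Squarefree n ∧ Even n ∧
          n ≡ k [MOD 8 * M] ∧ IsCongruent n ∧
          (∃ m, n = Nat.gcd k M * m ∧ AlmostPrime R X m) ∧
          (k % 8 = 6 → C n = ∅ ∧ D n = ∅)}.ncard : ℝ) := by
  obtain ⟨R, hR, X₀, h⟩ := Pool.Agent.Y859.SI.main θ hθ hθ1
  refine ⟨R, hR, X₀, ?_⟩
  intro X hX M hM0 hMX k hk hke
  refine (h X hX M hM0 hMX k hk).trans ?_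
  have hfin : {n : ℕ | X ≤ n ∧ (n : ℝ) ≤ X + X ^ θ ∧ Squarefree n ∧ Even n ∧
      n ≡ k [MOD 8 * M] ∧ IsCongruent n ∧
      (∃ m, n = Nat.gcd k M * m ∧ AlmostPrime R X m) ∧
      (k % 8 = 6 → C n = ∅ ∧ D n = ∅)}.Finite := by
    apply (Set.finite_Iic ⌊X + X ^ θ⌋₊).subset
    intro n hn
    exact Nat.le_floor hn.2.1
  have hsub : {n : ℕ | X ≤ n ∧ (n : ℝ) ≤ X + X ^ θ ∧ Squarefree n ∧
      n ≡ k [MOD 8 * M] ∧ Pool.Agent.Y859.SI.Cong n ∧
      ∃ m, n = Nat.gcd k M * m ∧ Pool.Agent.Y859.SI.Few R X m} ⊆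
      {n : ℕ | X ≤ n ∧ (n : ℝ) ≤ X + X ^ θ ∧ Squarefree n ∧ Even n ∧
      n ≡ k [MOD 8 * M] ∧ IsCongruent n ∧
      (∃ m, n = Nat.gcd k M * m ∧ AlmostPrime R X m) ∧
      (k % 8 = 6 → C n = ∅ ∧ D n = ∅)} := by
    intro n hn
    obtain ⟨h1, h2, h3, h4, h5, m, h6, h7, h8⟩ := hn
    have heven : Even n := by
      have h9 : n ≡ k [MOD 2] := h4.of_dvd ⟨4 * M, by ring⟩
      rw [Nat.even_iff] at hke ⊢
      have h10 : n % 2 = k % 2 := h9
      omega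
    have h8' : n % 8 = k % 8 := h4.of_dvd (Dvd.intro _ rfl)
    refine ⟨h1, h2, h3, heven, h4, h5, ⟨m, h6, h7, h8⟩, fun hk6 => ⟨?_, ?_⟩⟩
    · ext ⟨x, y, z⟩
      simp only [C, Set.mem_ofPred_eq, Set.mem_empty_iff_false, iff_false]
      exact no_rep n (by omega) x y z 64 (by norm_num)
    · ext ⟨x, y, z⟩
      simp only [D, Set.mem_ofPred_eq, Set.mem_empty_iff_false, iff_false]
      exact no_rep n (by omega) x y z 16 (by norm_num)
  exact_mod_cast Set.ncard_le_ncard hsub hfin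

end Pool.Agent.Results.MP_f126a2_nt.AlmostPrimeIntervals
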