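import Pool.Agent.X119.MilCong

set_option autoImplicit false

/-!
# Even almost prime congruent numbers of the form `⌊θ ^ (c ^ n)⌋`

Let `c > 3` and `B(c) = (5 c - 12) / ((7 c + 12) (c - 1)) > 0`. Prescribe for every `n` a modulus `M_n` with
`log M_n = o(c ^ n)` and an even squarefree number `k_n`. The real numbers `θ > 1` such that for all large `n` the number
`⌊θ ^ (c ^ n)⌋` is an even squarefree congruent number `≡ k_n` modulo `8 M_n`, and an almost prime times `(k_n, M_n)`, form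
a set of Hausdorff dimension at least `B(c)` in each open set that meets `(1, ∞)`. For `k_n ≡ 6` modulo `8` these
numbers satisfy the hypothesis `2 |C_n| = |D_n|` of the problem with empty sets `C_n`, `D_n`.

The input is the theorem `Pool.Agent.Y859.SI.main` of the result `AlmostPrimeIntervals` (`X ^ (1/12)` such
numbers in `[X, X + X ^ θ]`, `θ > 2/3`); the Cantor set argument is that of `Pool.Agent.X10.ML` (helper10) for sparse sets.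
-/

open Filter

namespace Pool.Agent.Results.MP_f126a2_nt.MillsSequences

/-- `n` is the area of a right triangle with rational sides -/
def IsCongruent (n : ℕ) : Prop :=
  ∃ a b c : ℚ, 0 < a ∧ 0 < b ∧ 0 < c ∧ a ^ 2 + b ^ 2 = c ^ 2 ∧ (n : ℚ) = a * b / 2

/-- the set `C_n` of the problem -/
def C (n : ℕ) : Set (ℤ × ℤ × ℤ) := {v | (n : ℤ) = 8 * v.1 ^ 2 + 2 * v.2.1 ^ 2 + 64 * v.2.2 ^ 2}

/-- the set `D_n` of the problem -/
def D (n : ℕ) : Set (ℤ × ℤ × ℤ) := {v | (n : ℤ) = 8 * v.1 ^ 2 + 2 * v.2.1 ^ 2 + 16 * v.2.2 ^ 2}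

/-- `m` has at most `R` prime factors (with multiplicity), the odd ones larger than `y ^ (1 / R)` -/
def AlmostPrime (R y m : ℕ) : Prop :=
  m.primeFactorsList.length ≤ R ∧ ∀ p : ℕ, p.Prime → p ≠ 2 → p ∣ m → (y : ℝ) ^ (1 / (R : ℝ)) < (p : ℝ)

/-- `y` is an even squarefree congruent number, `≡ k` modulo `8 M`, and `y / (k, M)` is an almost prime; if `k ≡ 6`
modulo `8`, then `C_y` and `D_y` are empty -/
def Good (R M k y : ℕ) : Prop :=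
  Squarefree y ∧ Even y ∧ y ≡ k [MOD 8 * M] ∧ IsCongruent y ∧
    (∃ m, y = Nat.gcd k M * m ∧ AlmostPrime R y m) ∧
    (k % 8 = 6 → C y = ∅ ∧ D y = ∅)

/-- the bound for the dimension -/
noncomputable def B (c : ℝ) : ℝ := (5 * c - 12) / ((7 * c + 12) * (c - 1))

lemma no_rep (n : ℕ) (h : n % 8 = 6) (x y z : ℤ) (c : ℤ) (hc : 8 ∣ c) : (n : ℤ) ≠ 8 * x ^ 2 + 2 * y ^ 2 + c * z ^ 2 := by
  intro he
  obtain ⟨d, rfl⟩ := hc
  have h1 : (n : ℤ) % 8 = 6 := by omega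
  have h2 : (8 * x ^ 2 + 2 * y ^ 2 + 8 * d * z ^ 2) % 8 = (2 * y ^ 2) % 8 := by
    have : 8 * x ^ 2 + 2 * y ^ 2 + 8 * d * z ^ 2 = 2 * y ^ 2 + 8 * (x ^ 2 + d * z ^ 2) := by ring
    rw [this, Int.add_mul_emod_self_left]
  rw [he, h2] at h1
  rcases Int.emod_two_eq_zero_or_one y with hy | hy
  · obtain ⟨k, hk⟩ : ∃ k, y = 2 * k := ⟨y / 2, by omega⟩
    rw [hk] at h1
    have : 2 * (2 * k) ^ 2 = 8 * k ^ 2 := by ring
    rw [this] at h1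
    omega
  · obtain ⟨k, hk⟩ : ∃ k, y = 2 * k + 1 := ⟨y / 2, by omega⟩
    rw [hk] at h1
    have : 2 * (2 * k + 1) ^ 2 = 2 + 8 * (k ^ 2 + k) := by ring
    rw [this] at h1
    omega

lemma main (c s : ℝ) (hc : 3 < c) (hs0 : 0 < s) (hs : s < B c) :
    ∃ R : ℕ, 1 ≤ R ∧ ∀ M k : ℕ → ℕ, (∀ n, 0 < M n ∧ Squarefree (k n) ∧ Even (k n)) →
      (∀ ε : ℝ, 0 < ε → ∀ᶠ n : ℕ in atTop, (M n : ℝ) ≤ Real.exp (ε * c ^ n)) →
      ∀ U : Set ℝ, IsOpen U → (U ∩ Set.Ioi 1).Nonempty →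
      ENNReal.ofReal s ≤ dimH {θ : ℝ | θ ∈ U ∧ 1 < θ ∧ ∃ N : ℕ, ∀ n : ℕ, N ≤ n →
        Good R (M n) (k n) ⌊θ ^ (c ^ n)⌋₊} := by
  have hc1 : 0 < c - 1 := by linarith
  have hs' : s * (7 * c + 12) * (c - 1) < 5 * c - 12 := by
    unfold B at hs
    rw [lt_div_iff₀ (by positivity)] at hs
    linarith
  obtain ⟨R, hR, h⟩ := Pool.Agent.X119.Mil.cong c s hc hs0 hs'
  refine ⟨R, hR, fun M k hall hM U hU hne => ?_⟩
  refine (h M k (fun n => (hall n).1) hM (fun n => (hall n).2.1) U hU hne).trans (dimH_mono ?_)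
  rintro θ ⟨t1, t2, N, t3⟩
  refine ⟨t1, t2, N, fun n hn => ?_⟩
  obtain ⟨h1, h2, h3, m, h6, h7, h8⟩ := t3 n hn
  have hmod : ⌊θ ^ (c ^ n)⌋₊ % 8 = k n % 8 := h2.of_dvd (Dvd.intro _ rfl)
  have hke := (hall n).2.2
  have heven : Even ⌊θ ^ (c ^ n)⌋₊ := by
    rw [Nat.even_iff] at hke ⊢
    omega
  refine ⟨h1, heven, h2, h3, ⟨m, h6, h7, h8⟩, fun h57 => ?_⟩
  constructor
  · apply Set.eq_empty_of_forall_notMem
    rintro ⟨x, y, z⟩ hv
    exact no_rep _ (by omega) x y z 64 (by norm_num) hv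
  · apply Set.eq_empty_of_forall_notMem
    rintro ⟨x, y, z⟩ hv
    exact no_rep _ (by omega) x y z 16 (by norm_num) hv

/-- **Even almost prime congruent numbers along doubly exponential sequences, in prescribed classes.** -/
theorem result (c : ℝ) (hc : 3 < c) :
    0 < B c ∧
    (∀ s : ℝ, 0 < s → s < B c → ∃ R : ℕ, 1 ≤ R ∧
      ∀ M k : ℕ → ℕ, (∀ n, 0 < M n ∧ Squarefree (k n) ∧ Even (k n)) →
      (∀ ε : ℝ, 0 < ε → ∀ᶠ n : ℕ in atTop, (M n : ℝ) ≤ Real.exp (ε * c ^ n)) →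
      ∀ U : Set ℝ, IsOpen U → (U ∩ Set.Ioi 1).Nonempty →
      ENNReal.ofReal s ≤ dimH {θ : ℝ | θ ∈ U ∧ 1 < θ ∧ ∃ N : ℕ, ∀ n : ℕ, N ≤ n →
        Good R (M n) (k n) ⌊θ ^ (c ^ n)⌋₊}) ∧
    ∀ M k : ℕ → ℕ, (∀ n, 0 < M n ∧ Squarefree (k n) ∧ Even (k n)) →
      (∀ ε : ℝ, 0 < ε → ∀ᶠ n : ℕ in atTop, (M n : ℝ) ≤ Real.exp (ε * c ^ n)) →
      ∀ U : Set ℝ, IsOpen U → (U ∩ Set.Ioi 1).Nonempty →
      ENNReal.ofReal (B c) ≤ dimH {θ : ℝ | θ ∈ U ∧ 1 < θ ∧ ∃ R N : ℕ, ∀ n : ℕ, N ≤ n →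
        Good R (M n) (k n) ⌊θ ^ (c ^ n)⌋₊} := by
  have hc1 : 0 < c - 1 := by linarith
  have hD : 0 < B c := by
    unfold B
    have : 0 < 5 * c - 12 := by linarith
    positivity
  refine ⟨hD, fun s hs0 hs => main c s hc hs0 hs, fun M k hall hM U hU hne => ?_⟩
  apply Pool.Agent.X119.Mil.dim_ge hD
  intro s hs0 hs
  obtain ⟨R, -, h⟩ := main c s hc hs0 hs
  refine (h M k hall hM U hU hne).trans (dimH_mono ?_)
  rintro θ ⟨t1, t2, N, t3⟩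
  exact ⟨t1, t2, R, N, t3⟩

end Pool.Agent.Results.MP_f126a2_nt.MillsSequences
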